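import Pool.Agent.Q72.MX.Stm2
import Pool.Agent.W996.EC.QFinal

/-! Project MX of helper72: job D1. -/

set_option autoImplicit false

namespace Pool.Agent.Q26.MX

open Filter Topology Polynomial Pool.Agent.Q72.MX Pool.Agent.W996.EC Pool.Agent

/-- countable or cocountable -/
def CC (X : Set ℂ) : Prop := X.Countable ∨ Xᶜ.Countable

theorem cc_compl {X : Set ℂ} (h : CC X) : CC Xᶜ := by
  rcases h with h | h
  · exact Or.inr (by rwa [compl_compl])
  · exact Or.inl h

theorem cc_inter {X Y : Set ℂ} (hX : CC X) (hY : CC Y) : CC (X ∩ Y) := by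
  rcases hX with h | h
  · exact Or.inl (h.mono Set.inter_subset_left)
  · rcases hY with h' | h'
    · exact Or.inl (h'.mono Set.inter_subset_right)
    · right
      rw [Set.compl_inter]
      exact h.union h'

theorem cc_biUnion {ι : Type} (B : Finset ι) (Z : ι → Set ℂ) (h : ∀ β ∈ B, CC (Z β)) :
    CC (⋃ β ∈ B, Z β) := by
  by_cases hall : ∀ β ∈ B, (Z β).Countable
  · left
    exact B.countable_toSet.biUnion (fun β hβ => hall β hβ)
  · right
    push Not at hall
    obtain ⟨β, hβ, hn⟩ := hall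
    refine ((h β hβ).resolve_left hn).mono ?_
    exact Set.compl_subset_compl.2 (Set.subset_biUnion_of_mem (u := Z) hβ)

theorem cc_biInter {ι : Type} (B : Finset ι) (Z : ι → Set ℂ) (h : ∀ β ∈ B, CC (Z β)) :
    CC (⋂ β ∈ B, Z β) := by
  have h1 := cc_compl (cc_biUnion B (fun β => (Z β)ᶜ) (fun β hβ => cc_compl (h β hβ)))
  have h2 : (⋃ β ∈ B, (Z β)ᶜ)ᶜ = ⋂ β ∈ B, Z β := by
    ext s
    simp
  rwa [h2] at h1

theorem cc_zero {a K : ℕ} (T : Set (ℂ × ℂ)) (f : Fin K → ℂ → ℂ)
    (P : Fin K → MvPolynomial (Fin a) ℂ[X][X]) (hf : ∀ k, Differentiable ℂ (f k)) :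
    CC {s : ℂ | ∀ p ∈ T, spec (_root_.W973.EC.PP f P s) p.1 p.2 = 0} := by
  by_cases hall : ∀ s : ℂ, ∀ p ∈ T, spec (_root_.W973.EC.PP f P s) p.1 p.2 = 0
  · right
    have : {s : ℂ | ∀ p ∈ T, spec (_root_.W973.EC.PP f P s) p.1 p.2 = 0}ᶜ = ∅ := by
      rw [Set.compl_empty_iff, Set.eq_univ_iff_forall]
      exact hall
    rw [this]
    exact Set.countable_empty
  · push Not at hall
    obtain ⟨s0, p0, hp0, hne⟩ := hall
    obtain ⟨m0, hm0⟩ := MvPolynomial.ne_zero_iff.1 hne
    left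
    have hdiff : Differentiable ℂ
        (fun s => MvPolynomial.coeff m0 (spec (_root_.W973.EC.PP f P s) p0.1 p0.2)) := by
      simp_rw [_root_.W973.EC.coeff_PP]
      exact Differentiable.fun_sum fun k _ => (hf k).mul_const _
    refine (_root_.W973.EC.zeros_countable hdiff hm0).mono ?_
    intro s hs
    show MvPolynomial.coeff m0 (spec (_root_.W973.EC.PP f P s) p0.1 p0.2) = 0
    rw [hs p0 hp0, MvPolynomial.coeff_zero]

theorem dich' : S_dich' :=
  _root_.W973.EC.t_dich' (_root_.W973.EC.t_dich (W930.ECCnt.t_cnt gen bdd W114.ECR.t_res))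
    W114.ECC.t_conn

theorem d1 (h1 : S_M) : S_D1 := by
  intro a b K F h R S hC hR hR0 hS B f Q hf
  change CC _
  obtain ⟨z0, hz0⟩ := exists_eval_ne_zero hC.hne
  obtain ⟨v0, hv0⟩ := exists_pt hC z0 hz0
  have hET : ∀ p ∈ TT F h, ∃ x : Fin a → ℂ, ∀ i, Complex.exp (x i) = R i p :=
    fun p hp => ⟨fun i => Complex.log (R i p), fun i => Complex.exp_log (hR0 i p hp)⟩
  have hval : ∀ (s : ℂ) (p : ℂ × ℂ) (x : Fin a → ℂ), ∑ k, f k s * EPv S B (Q k) p x =
      EPv S B (fun β => _root_.W973.EC.PP f (fun k => Q k β) s) p x := by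
    intro s p x
    unfold EPv
    simp only [Finset.mul_sum]
    rw [Finset.sum_comm]
    refine Finset.sum_congr rfl fun β _ => ?_
    rw [_root_.W973.EC.eval_PP, Finset.mul_sum]
    refine Finset.sum_congr rfl fun k _ => ?_
    ring
  classical
  set W : (Fin b → ℤ) → Set ℂ := fun γ =>
    {s : ℂ | ∀ p ∈ TT F h, spec (_root_.W973.EC.PP f (fun k => Q k γ) s) p.1 p.2 = 0} with hW
  set V : (Fin b → ℤ) → Set ℂ := fun β => {s : ℂ | ∃ e ∈ ET (TT F h) R,
    ∑ k, f k s * MvPolynomial.eval e.2 (spec (Q k β) e.1.1 e.1.2) = 0} with hV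
  have hXc : (XS1 F h R S B f Q)ᶜ = ⋃ β ∈ B, ((⋂ γ ∈ B.erase β, W γ) ∩ (V β)ᶜ) := by
    ext s
    simp only [Set.mem_iUnion, exists_prop]
    constructor
    · intro hs
      have hs' : ∀ e ∈ ET (TT F h) R,
          EPv S B (fun β => _root_.W973.EC.PP f (fun k => Q k β) s) e.1 e.2 ≠ 0 := by
        intro e he h0
        exact hs ⟨e, he, by rw [hval, h0]⟩
      have hex : ∃ β ∈ B, s ∉ W β := by
        by_contra hcon
        push Not at hcon
        obtain ⟨x, hx⟩ := hET _ hv0
        apply hs' ((z0, v0), x) ⟨hv0, hx⟩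
        unfold EPv
        refine Finset.sum_eq_zero fun β hβ => ?_
        have := hcon β hβ (z0, v0) hv0
        simp only at this ⊢
        rw [this, map_zero, mul_zero]
      obtain ⟨β, hβ, hne⟩ := hex
      have hother : ∀ γ ∈ B.erase β, s ∈ W γ := by
        intro γ hγ
        rw [Finset.mem_erase] at hγ
        by_contra hcon
        have e1 : ∃ p ∈ TT F h,
            spec (_root_.W973.EC.PP f (fun k => Q k β) s) p.1 p.2 ≠ 0 := by
          by_contra hc
          push Not at hc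
          exact hne hc
        have e2 : ∃ p ∈ TT F h,
            spec (_root_.W973.EC.PP f (fun k => Q k γ) s) p.1 p.2 ≠ 0 := by
          by_contra hc
          push Not at hc
          exact hcon hc
        obtain ⟨p, hp, x, hx, h0⟩ := h1 a b F h R S hC hR hR0 hS B
          (fun β => _root_.W973.EC.PP f (fun k => Q k β) s) β γ hβ hγ.2 (Ne.symm hγ.1) e1 e2
        exact hs' (p, x) ⟨hp, hx⟩ h0
      refine ⟨β, hβ, Set.mem_iInter₂.2 hother, ?_⟩
      rintro ⟨e, he, h0⟩
      apply hs' e he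
      unfold EPv
      rw [← Finset.add_sum_erase B _ hβ]
      have h2 : ∑ γ ∈ B.erase β, Complex.exp (dt S γ e.1) *
          MvPolynomial.eval e.2 (spec (_root_.W973.EC.PP f (fun k => Q k γ) s) e.1.1 e.1.2) = 0 := by
        refine Finset.sum_eq_zero fun γ hγ => ?_
        rw [hother γ hγ e.1 he.1, map_zero, mul_zero]
      rw [h2, add_zero, _root_.W973.EC.eval_PP, h0, mul_zero]
    · rintro ⟨β, hβ, h2, h3⟩ ⟨e, he, h0⟩
      apply h3
      refine ⟨e, he, ?_⟩
      rw [hval] at h0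
      unfold EPv at h0
      rw [← Finset.add_sum_erase B _ hβ] at h0
      have h4 : ∑ γ ∈ B.erase β, Complex.exp (dt S γ e.1) *
          MvPolynomial.eval e.2 (spec (_root_.W973.EC.PP f (fun k => Q k γ) s) e.1.1 e.1.2) = 0 := by
        refine Finset.sum_eq_zero fun γ hγ => ?_
        rw [Set.mem_iInter₂.1 h2 γ hγ e.1 he.1, map_zero, mul_zero]
      rw [h4, add_zero, _root_.W973.EC.eval_PP] at h0
      exact (mul_eq_zero.1 h0).resolve_left (Complex.exp_ne_zero _)
  have hfin : CC (XS1 F h R S B f Q)ᶜ := by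
    rw [hXc]
    refine cc_biUnion B _ fun β hβ => cc_inter (cc_biInter _ _ fun γ hγ => ?_) (cc_compl ?_)
    · exact cc_zero (TT F h) f (fun k => Q k γ) hf
    · exact dich' a F h R hC hR hR0 K f (fun k => Q k β) hf
  have := cc_compl hfin
  rwa [compl_compl] at this

end Pool.Agent.Q26.MX
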