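import Pool.Agent.Q72.MX.Stm2

/-! Project MX of helper72: job D3. -/

set_option autoImplicit false

namespace Pool.Agent.Q26.MX

open Filter Topology Polynomial Pool.Agent.Q72.MX Pool.Agent.W996.EC Pool.Agent

variable {a b b' : ℕ}

/-- the part of the exponent in the variables `x` -/
noncomputable def xm (m : (Fin a ⊕ Fin b) →₀ ℕ) : Fin a →₀ ℕ :=
  Finsupp.equivFunOnFinite.symm (fun i => m (Sum.inl i))

/-- the image of the part of the exponent in the variables `y` -/
def bt (M : Fin b → Fin b' → ℤ) (m : (Fin a ⊕ Fin b) →₀ ℕ) : Fin b' → ℤ :=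
  fun l => ∑ j, (m (Sum.inr j) : ℤ) * M j l

/-- the constant factor -/
noncomputable def cf (c : Fin b → ℂ) (m : (Fin a ⊕ Fin b) →₀ ℕ) : ℂ :=
  Complex.exp (∑ j, (m (Sum.inr j) : ℂ) * c j)

/-- the coefficients of the sum -/
noncomputable def QQ (M : Fin b → Fin b' → ℤ) (c : Fin b → ℂ)
    (P : MvPolynomial (Fin a ⊕ Fin b) ℂ[X][X]) (β : Fin b' → ℤ) : MvPolynomial (Fin a) ℂ[X][X] :=
  ∑ m ∈ P.support, if bt M m = β then
    MvPolynomial.monomial (xm m) (MvPolynomial.coeff m P * C (C (cf c m))) else 0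

theorem eval_QQ (M : Fin b → Fin b' → ℤ) (c : Fin b → ℂ)
    (P : MvPolynomial (Fin a ⊕ Fin b) ℂ[X][X]) (β : Fin b' → ℤ) (z v : ℂ) (x : Fin a → ℂ) :
    MvPolynomial.eval x (spec (QQ M c P β) z v) = ∑ m ∈ P.support, if bt M m = β then
      (MvPolynomial.coeff m P).evalEval z v * cf c m * ∏ i, x i ^ m (Sum.inl i) else 0 := by
  unfold QQ spec
  rw [map_sum, map_sum]
  refine Finset.sum_congr rfl fun m _ => ?_
  split_ifs with h
  · rw [MvPolynomial.map_monomial, MvPolynomial.eval_monomial]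
    have e1 : (evalEvalRingHom z v) (MvPolynomial.coeff m P * C (C (cf c m))) =
        (MvPolynomial.coeff m P).evalEval z v * cf c m := by
      rw [map_mul]
      simp
    rw [e1]
    congr 1
    rw [Finsupp.prod_fintype _ _ (fun i => pow_zero _)]
    rfl
  · simp

theorem eval_P (P : MvPolynomial (Fin a ⊕ Fin b) ℂ[X][X]) (z v : ℂ) (x : Fin a → ℂ)
    (y : Fin b → ℂ) : MvPolynomial.eval (Sum.elim x y)
      (MvPolynomial.map (evalEvalRingHom z v) P) = ∑ m ∈ P.support,
        (MvPolynomial.coeff m P).evalEval z v * ((∏ i, x i ^ m (Sum.inl i)) *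
          ∏ j, y j ^ m (Sum.inr j)) := by
  conv_lhs => rw [P.as_sum]
  rw [map_sum, map_sum]
  refine Finset.sum_congr rfl fun m _ => ?_
  rw [MvPolynomial.map_monomial, MvPolynomial.eval_monomial]
  congr 1
  rw [Finsupp.prod_fintype _ _ (fun i => pow_zero _), Fintype.prod_sum_type]
  rfl

theorem exp_part (M : Fin b → Fin b' → ℤ) (c : Fin b → ℂ) (S : Fin b → ℂ × ℂ → ℂ)
    (S' : Fin b' → ℂ × ℂ → ℂ) (p : ℂ × ℂ)
    (h : ∀ j, S j p = ∑ l, (M j l : ℂ) * S' l p + c j) (m : (Fin a ⊕ Fin b) →₀ ℕ) :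
    ∏ j, Complex.exp (S j p) ^ m (Sum.inr j) = cf c m * Complex.exp (dt S' (bt M m) p) := by
  unfold cf dt bt
  rw [← Complex.exp_add]
  have e1 : ∀ j, Complex.exp (S j p) ^ m (Sum.inr j) =
      Complex.exp ((m (Sum.inr j) : ℂ) * S j p) := fun j => by rw [Complex.exp_nat_mul]
  rw [Finset.prod_congr rfl fun j _ => e1 j, ← Complex.exp_sum]
  congr 1
  push_cast
  simp only [Finset.sum_mul]
  rw [Finset.sum_comm, ← Finset.sum_add_distrib]
  refine Finset.sum_congr rfl fun j _ => ?_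
  rw [h j, mul_add, Finset.mul_sum, add_comm]
  congr 1
  refine Finset.sum_congr rfl fun l _ => ?_
  ring

theorem d3 (h1 : S_D1) (h2 : S_D2) : S_D3 := by
  intro a b K F h R S hC hR hR0 hS f P hf
  obtain ⟨b', S', M, c, hI, hrel⟩ := h2 b F h S hC hS
  classical
  set B : Finset (Fin b' → ℤ) :=
    Finset.univ.biUnion (fun k : Fin K => (P k).support.image (bt M)) with hB
  have hkey : ∀ p ∈ TT F h, ∀ (x : Fin a → ℂ) (k : Fin K),
      MvPolynomial.eval (Sum.elim x (fun j => Complex.exp (S j p)))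
        (MvPolynomial.map (evalEvalRingHom p.1 p.2) (P k)) =
      EPv S' B (fun β => QQ M c (P k) β) p x := by
    intro p hp x k
    rw [eval_P]
    unfold EPv
    simp only [eval_QQ, Finset.mul_sum]
    rw [Finset.sum_comm]
    refine Finset.sum_congr rfl fun m hm => ?_
    have hmB : bt M m ∈ B := by
      rw [hB, Finset.mem_biUnion]
      exact ⟨k, Finset.mem_univ _, Finset.mem_image_of_mem _ hm⟩
    rw [Finset.sum_eq_single (bt M m)]
    · rw [if_pos rfl, exp_part M c S S' p (hrel p hp) m]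
      ring
    · intro β _ hne
      rw [if_neg (Ne.symm hne), mul_zero]
    · intro hn
      exact absurd hmB hn
  have heq : XS2 F h R S f P = XS1 F h R S' B f (fun k β => QQ M c (P k) β) := by
    ext s
    constructor
    · rintro ⟨p, hp, x, hx, h0⟩
      refine ⟨(p, x), ⟨hp, hx⟩, ?_⟩
      rw [← h0]
      exact Finset.sum_congr rfl fun k _ => by rw [hkey p hp x k]
    · rintro ⟨⟨p, x⟩, ⟨hp, hx⟩, h0⟩
      refine ⟨p, hp, x, hx, ?_⟩
      rw [← h0]
      exact Finset.sum_congr rfl fun k _ => by rw [hkey p hp x k]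
  rw [heq]
  exact h1 a b' K F h R S' hC hR hR0 hI B f _ hf

end Pool.Agent.Q26.MX
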